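import Mathlib
import Pool.Agent.H26R2.Bass.Defs

set_option autoImplicit false

/-!
Definitions: fully divisible elements and unmixed normal subgroups.
-/

namespace Pool.Agent.H26R2.Bass

universe u v w

section

variable {G : Type v} [Group G]

/-- For every `k ≥ 1` the element `s` is conjugate to `s ^ (k ^ J)` for some `J ≥ 1`. -/
def FullyAD (s : G) : Prop := ∀ k : ℕ, 1 ≤ k → ∃ J : ℕ, 1 ≤ J ∧ IsConj s (s ^ k ^ J)

/-- Fully divisible elements of `G` that are equal modulo `N` are conjugate. -/
def Unmixed (N : Subgroup G) : Prop :=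
  ∀ s n : G, n ∈ N → FullyAD s → FullyAD (s * n) → IsConj s (s * n)

/-- The image of `G` in the automorphism group of `N` has no nontrivial fully divisible elements. -/
def RigidAction (N : Subgroup G) [N.Normal] : Prop :=
  ∀ s : G ⧸ Subgroup.centralizer (N : Set G), FullyAD s → s = 1

/-- Every element of the centre of `N` has a positive power with finitely many conjugates in
`G`. -/
def TameCentre (N : Subgroup G) : Prop :=
  ∀ n ∈ N, n ∈ Subgroup.centralizer (N : Set G) → ∃ k : ℕ, 1 ≤ k ∧ {b | IsConj (n ^ k) b}.Finite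

/-- `N` is finitely generated and residually finite. -/
def FGResFinite (N : Subgroup G) : Prop :=
  N.FG ∧ ∀ x : N, x ≠ 1 → ∃ (Q : Type) (_ : Group Q) (_ : Finite Q) (f : N →* Q), f x ≠ 1

/-- The intersection of the normal subgroups of `G` that have finite index in `N` is trivial. -/
def NormallyResFinite (N : Subgroup G) : Prop :=
  ∀ x ∈ N, x ≠ 1 → ∃ M : Subgroup G, M.Normal ∧ M ≤ N ∧ (M.subgroupOf N).FiniteIndex ∧ x ∉ M

/-- The centre of `N` is tame, and `N` has finite conjugacy classes in `G`, or is finitely generated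
and residually finite, or is residually finite through normal subgroups of `G`, or `G` acts on `N`
through a group that satisfies `PChainFin p` for some prime `p`. -/
def SpecialKernel (N : Subgroup G) : Prop :=
  TameCentre N ∧ ((∀ a ∈ N, {b | IsConj a b}.Finite) ∨ FGResFinite N ∨ NormallyResFinite N ∨
    ∃ (_ : N.Normal) (p : ℕ), p.Prime ∧ PChainFin p (G ⧸ Subgroup.centralizer (N : Set G)))

/-- `N` has a finite series `1 = S_0 ≤ S_1 ≤ … ≤ S_k = N` of normal subgroups of `G` whose factors
`S_{i+1}/S_i` are unmixed or special in `G/S_i`. -/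
def LiftSeries (N : Subgroup G) : Prop :=
  ∃ (k : ℕ) (S : ℕ → Subgroup G) (_ : ∀ i, (S i).Normal), S 0 = ⊥ ∧ S k = N ∧
    ∀ i < k, S i ≤ S (i + 1) ∧ (Unmixed ((S (i + 1)).map (QuotientGroup.mk' (S i))) ∨
      SpecialKernel ((S (i + 1)).map (QuotientGroup.mk' (S i))))

end

/-- No prime number is a unit in `R`. -/
def NoUnitPrimes (R : Type u) [CommRing R] : Prop := ∀ p : ℕ, p.Prime → ¬ IsUnit (p : R)

end Pool.Agent.H26R2.Bass
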