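import Mathlib
import Pool.Agent.H26R2.Bass.Main
import Pool.Agent.H26R2.Bass.LiftDefs

set_option autoImplicit false

/-!
Domains in which no prime is a unit: the Bass trace conjecture lifts through normal subgroups with
finite conjugacy classes.
-/

namespace Pool.Agent.H26R2.Bass

open MonoidAlgebra
open Pool.Agent.H23R2.Cyc (ell ell_single ell_mul_comm ell_eq_sum tf tf_apply tf_eq_zero)
open Pool.Agent.H26R2.IdemLI (FinOrd isConj_pow_mul isConj_pow_pow)

universe u v w

section

variable {G : Type v} [Group G]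

lemma isConj_pow' {a b : G} (h : IsConj a b) (k : ℕ) : IsConj (a ^ k) (b ^ k) := by
  obtain ⟨c, rfl⟩ := isConj_iff.1 h
  exact isConj_iff.2 ⟨c, by rw [conj_pow]⟩

lemma FullyAD.mul_exp {s : G} {k J : ℕ} (h : IsConj s (s ^ k ^ J)) (m : ℕ) :
    IsConj s (s ^ k ^ (J * m)) := by
  rw [pow_mul]
  exact isConj_pow_pow h m

lemma FullyAD.pow {s : G} (h : FullyAD s) (r : ℕ) : FullyAD (s ^ r) := by
  intro k hk
  obtain ⟨J, hJ, h1⟩ := h k hk
  refine ⟨J, hJ, ?_⟩
  have := isConj_pow' h1 r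
  rwa [← pow_mul, mul_comm, pow_mul] at this

lemma fullyAD_of_primes {s : G} (h : ∀ p : ℕ, p.Prime → ∃ j : ℕ, 1 ≤ j ∧ IsConj s (s ^ p ^ j)) :
    FullyAD s := by
  intro k
  induction k using Nat.recOnMul with
  | zero => intro hk; omega
  | one => intro _; exact ⟨1, le_rfl, by rw [one_pow, pow_one]⟩
  | prime p hp => intro _; exact h p hp
  | mul a b ha hb =>
    intro hab
    have ha0 : 1 ≤ a := Nat.pos_of_ne_zero (by rintro rfl; simp at hab)
    have hb0 : 1 ≤ b := Nat.pos_of_ne_zero (by rintro rfl; simp at hab)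
    obtain ⟨J, hJ, h1⟩ := ha ha0
    obtain ⟨L, hL, h2⟩ := hb hb0
    refine ⟨J * L, Nat.mul_pos hJ hL, ?_⟩
    rw [mul_pow]
    have h3 := FullyAD.mul_exp h1 L
    have h4 := FullyAD.mul_exp h2 J
    rw [mul_comm L J] at h4
    exact isConj_pow_mul h3 h4

/-- elements with conjugate powers are conjugate -/
lemma FullyAD.isConj_of_pow {s t : G} (hs : FullyAD s) (ht : FullyAD t) {k : ℕ} (hk : 1 ≤ k)
    (h : IsConj (s ^ k) (t ^ k)) : IsConj s t := by
  obtain ⟨J, hJ, h1⟩ := hs k hk
  obtain ⟨L, hL, h2⟩ := ht k hk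
  have h3 := FullyAD.mul_exp h1 L
  have h4 := FullyAD.mul_exp h2 J
  rw [mul_comm L J] at h4
  have hpos : 1 ≤ J * L := Nat.mul_pos hJ hL
  have h5 : IsConj (s ^ k ^ (J * L)) (t ^ k ^ (J * L)) := by
    obtain ⟨m, hm⟩ : ∃ m, J * L = m + 1 := ⟨J * L - 1, by omega⟩
    rw [hm, pow_succ', pow_mul, pow_mul]
    exact isConj_pow' h _
  exact h3.trans (h5.trans h4.symm)

/-- both exponents can be taken equal -/
lemma FullyAD.both {s t : G} (hs : FullyAD s) (ht : FullyAD t) {k : ℕ} (hk : 1 ≤ k) :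
    ∃ J : ℕ, 1 ≤ J ∧ IsConj s (s ^ k ^ J) ∧ IsConj t (t ^ k ^ J) := by
  obtain ⟨J, hJ, h1⟩ := hs k hk
  obtain ⟨L, hL, h2⟩ := ht k hk
  refine ⟨J * L, Nat.mul_pos hJ hL, FullyAD.mul_exp h1 L, ?_⟩
  have h4 := FullyAD.mul_exp h2 J
  rwa [mul_comm L J] at h4

/-- the core case -/
theorem isConj_core (C : Subgroup G) [C.Normal] [C.FiniteIndex] (s n : G) (hs : s ∈ C)
    (hn : ∀ c ∈ C, c * n = n * c) (h1 : FullyAD s) (h2 : FullyAD (s * n)) : IsConj s (s * n) := by
  classical
  -- the conjugates of `n` commute with `C`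
  have hcomm : ∀ g c : G, c ∈ C → c * (g⁻¹ * n * g) = g⁻¹ * n * g * c := by
    intro g c hc
    have h3 := hn (g * c * g⁻¹) (‹C.Normal›.conj_mem c hc g)
    calc c * (g⁻¹ * n * g) = g⁻¹ * (g * c * g⁻¹ * n) * g := by group
      _ = g⁻¹ * (n * (g * c * g⁻¹)) * g := by rw [h3]
      _ = g⁻¹ * n * g * c := by group
  -- the property
  let P : G → ℕ → Prop := fun b e => ∃ c ∈ C, c * s * c⁻¹ = s * b ^ e
  have P1 : ∀ g : G, ∀ e t : ℕ, P (g⁻¹ * n * g) e → P (g⁻¹ * n * g) (e * t) := by
    intro g e t h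
    obtain ⟨c, hc, hce⟩ := h
    set b := g⁻¹ * n * g with hb
    have hcb : Commute c (b ^ e) := (show Commute c b from hcomm g c hc).pow_right e
    refine ⟨c ^ t, C.pow_mem hc t, ?_⟩
    induction t with
    | zero => simp
    | succ t ih =>
      have e1 : c ^ (t + 1) * s * (c ^ (t + 1))⁻¹ = c * (c ^ t * s * (c ^ t)⁻¹) * c⁻¹ := by
        rw [pow_succ']
        group
      rw [e1, ih]
      have hcb' : Commute c (b ^ (e * t)) := (show Commute c b from hcomm g c hc).pow_right _
      calc c * (s * b ^ (e * t)) * c⁻¹ = (c * s * c⁻¹) * (c * b ^ (e * t) * c⁻¹) := by group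
        _ = s * b ^ e * b ^ (e * t) := by
            rw [hce, hcb'.eq]
            group
        _ = s * b ^ (e * (t + 1)) := by
            rw [mul_assoc, ← pow_add]
            congr 2
            ring
  have P2 : ∀ g y : G, ∀ k e : ℕ, y * s * y⁻¹ = s ^ k → P (g⁻¹ * n * g) e →
      P (y⁻¹ * (g⁻¹ * n * g) * y) (e * k) := by
    intro g y k e hy h
    obtain ⟨c, hc, hce⟩ := h
    set b := g⁻¹ * n * g with hb
    have hsb : Commute s (b ^ e) := (show Commute s b from hcomm g s hs).pow_right e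
    refine ⟨y⁻¹ * c * y, ?_, ?_⟩
    · have := ‹C.Normal›.conj_mem c hc y⁻¹
      rwa [inv_inv] at this
    · have e1 : c * s ^ k * c⁻¹ = s ^ k * b ^ (e * k) := by
        rw [← conj_pow, hce, hsb.mul_pow, ← pow_mul]
      have e2 : s = y⁻¹ * s ^ k * y := by rw [← hy]; group
      have e3 : ∀ z : G, ∀ m : ℕ, (y⁻¹ * z * y) ^ m = y⁻¹ * z ^ m * y := by
        intro z m
        have := conj_pow (a := y⁻¹) (b := z) (i := m)
        rwa [inv_inv] at this
      calc y⁻¹ * c * y * s * (y⁻¹ * c * y)⁻¹ = y⁻¹ * (c * (y * s * y⁻¹) * c⁻¹) * y := by group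
        _ = y⁻¹ * (s ^ k * b ^ (e * k)) * y := by rw [hy, e1]
        _ = (y⁻¹ * s ^ k * y) * (y⁻¹ * b ^ (e * k) * y) := by group
        _ = s * (y⁻¹ * b * y) ^ (e * k) := by rw [← e2, e3]
  -- the basic relation
  have rel : ∀ k : ℕ, ∀ y y' : G, y * s * y⁻¹ = s ^ k → y' * (s * n) * y'⁻¹ = (s * n) ^ k →
      (y⁻¹ * y') * (s * n) * (y⁻¹ * y')⁻¹ = s * (y⁻¹ * n * y) ^ k := by
    intro k y y' hy hy'
    have e3 : (y⁻¹ * n * y) ^ k = y⁻¹ * n ^ k * y := by
      have := conj_pow (a := y⁻¹) (b := n) (i := k)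
      rwa [inv_inv] at this
    have hsn : Commute s n := hn s hs
    have e2 : s = y⁻¹ * s ^ k * y := by rw [← hy]; group
    calc (y⁻¹ * y') * (s * n) * (y⁻¹ * y')⁻¹ = y⁻¹ * (y' * (s * n) * y'⁻¹) * y := by group
      _ = y⁻¹ * (s ^ k * n ^ k) * y := by rw [hy', hsn.mul_pow]
      _ = (y⁻¹ * s ^ k * y) * (y⁻¹ * n ^ k * y) := by group
      _ = s * (y⁻¹ * n * y) ^ k := by rw [← e2, e3]
  -- Step 1: some power of `n` is good
  obtain ⟨e1, he1, hPn⟩ : ∃ e : ℕ, 1 ≤ e ∧ P n e := by
    have hex : ∀ p : Nat.Primes, ∃ (J : ℕ) (y y' : G), 1 ≤ J ∧ y * s * y⁻¹ = s ^ (p : ℕ) ^ J ∧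
        y' * (s * n) * y'⁻¹ = (s * n) ^ (p : ℕ) ^ J := by
      intro p
      obtain ⟨J, hJ, h3, h4⟩ := FullyAD.both h1 h2 p.2.one_le
      obtain ⟨y, hy⟩ := isConj_iff.1 h3
      obtain ⟨y', hy'⟩ := isConj_iff.1 h4
      exact ⟨J, y, y', hJ, hy, hy'⟩
    choose J y y' hJ hy hy' using hex
    obtain ⟨p, q, hpq, heq⟩ := Finite.exists_ne_map_eq_of_infinite
      (fun p : Nat.Primes => ((QuotientGroup.mk (y p) : G ⧸ C), (QuotientGroup.mk (y' p) : G ⧸ C)))
    obtain ⟨heq1, heq2⟩ := Prod.mk.inj heq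
    -- exponents are distinct
    wlog hlt : (p : ℕ) ^ J p < (q : ℕ) ^ J q generalizing p q
    · have hne : (p : ℕ) ^ J p ≠ (q : ℕ) ^ J q := by
        intro h
        apply hpq
        have h3 : (p : ℕ) ∣ (q : ℕ) ^ J q := h ▸ dvd_pow_self _ (by have := hJ p; omega)
        have h4 := p.2.dvd_of_dvd_pow h3
        exact Subtype.ext ((Nat.prime_dvd_prime_iff_eq p.2 q.2).1 h4)
      exact this q p hpq.symm heq.symm heq1.symm heq2.symm (by omega)
    have hc1 : (y p)⁻¹ * y q ∈ C := QuotientGroup.eq.1 heq1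
    have hc2 : (y' p)⁻¹ * y' q ∈ C := QuotientGroup.eq.1 heq2
    have hb : (y q)⁻¹ * n * y q = (y p)⁻¹ * n * y p := by
      have h3 := hcomm (y p) _ hc1
      calc (y q)⁻¹ * n * y q = ((y p)⁻¹ * y q)⁻¹ * (((y p)⁻¹ * n * y p) * ((y p)⁻¹ * y q)) := by
            group
        _ = ((y p)⁻¹ * y q)⁻¹ * (((y p)⁻¹ * y q) * ((y p)⁻¹ * n * y p)) := by rw [h3]
        _ = (y p)⁻¹ * n * y p := by group
    have r1 := rel _ _ _ (hy p) (hy' p)
    have r2 := rel _ _ _ (hy q) (hy' q)
    rw [hb] at r2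
    set b := (y p)⁻¹ * n * y p with hbdef
    set w1 := (y p)⁻¹ * y' p with hw1
    set w2 := (y q)⁻¹ * y' q with hw2
    have hcC : w2 * w1⁻¹ ∈ C := by
      have h3 : (QuotientGroup.mk' C) (w2 * w1⁻¹) = 1 := by
        rw [hw1, hw2]
        simp only [map_mul, map_inv]
        have e1 : (QuotientGroup.mk' C) (y p) = (QuotientGroup.mk' C) (y q) := heq1
        have e2 : (QuotientGroup.mk' C) (y' p) = (QuotientGroup.mk' C) (y' q) := heq2
        rw [e1, e2]
        group
      exact (QuotientGroup.eq_one_iff _).1 h3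
    have hcb : Commute (w2 * w1⁻¹) (b ^ (p : ℕ) ^ J p) :=
      (show Commute (w2 * w1⁻¹) b from hcomm (y p) _ hcC).pow_right _
    have hPb : P b ((q : ℕ) ^ J q - (p : ℕ) ^ J p) := by
      refine ⟨w2 * w1⁻¹, hcC, ?_⟩
      have h3 : (w2 * w1⁻¹) * (s * b ^ (p : ℕ) ^ J p) * (w2 * w1⁻¹)⁻¹ = s * b ^ (q : ℕ) ^ J q := by
        rw [← r1, ← r2]
        group
      have h4 : (w2 * w1⁻¹) * s * (w2 * w1⁻¹)⁻¹ * b ^ (p : ℕ) ^ J p = s * b ^ (q : ℕ) ^ J q := by
        rw [← h3]
        calc (w2 * w1⁻¹) * s * (w2 * w1⁻¹)⁻¹ * b ^ (p : ℕ) ^ J p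
            = (w2 * w1⁻¹) * s * (w2 * w1⁻¹)⁻¹ * (b ^ (p : ℕ) ^ J p * (w2 * w1⁻¹)) *
                (w2 * w1⁻¹)⁻¹ := by group
          _ = (w2 * w1⁻¹) * s * (w2 * w1⁻¹)⁻¹ * ((w2 * w1⁻¹) * b ^ (p : ℕ) ^ J p) *
                (w2 * w1⁻¹)⁻¹ := by rw [hcb.eq]
          _ = (w2 * w1⁻¹) * (s * b ^ (p : ℕ) ^ J p) * (w2 * w1⁻¹)⁻¹ := by group
      have h5 : b ^ (q : ℕ) ^ J q = b ^ ((q : ℕ) ^ J q - (p : ℕ) ^ J p) * b ^ (p : ℕ) ^ J p := by
        rw [← pow_add, Nat.sub_add_cancel hlt.le]
      rw [h5, ← mul_assoc] at h4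
      exact mul_right_cancel h4
    -- back to `n`
    set r := C.index with hr
    have hr0 : 1 ≤ r := Nat.pos_of_ne_zero Subgroup.FiniteIndex.index_ne_zero
    have hyr : y p ^ r ∈ C := C.pow_index_mem (y p)
    have hyit : ∀ i : ℕ, (y p) ^ i * s * ((y p) ^ i)⁻¹ = s ^ ((p : ℕ) ^ J p) ^ i := by
      intro i
      induction i with
      | zero => simp
      | succ i ih =>
        have e4 : (y p) ^ (i + 1) * s * ((y p) ^ (i + 1))⁻¹ =
            (y p) * ((y p) ^ i * s * ((y p) ^ i)⁻¹) * (y p)⁻¹ := by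
          rw [pow_succ']
          group
        rw [e4, ih, ← conj_pow, hy p, ← pow_mul, ← pow_succ']
    have h6 := P2 (y p) ((y p) ^ (r - 1)) _ _ (hyit (r - 1)) hPb
    have h7 : ((y p) ^ (r - 1))⁻¹ * ((y p)⁻¹ * n * y p) * (y p) ^ (r - 1) = n := by
      have e5 : (y p) ^ r = y p * (y p) ^ (r - 1) := by
        rw [← pow_succ']
        congr 1
        omega
      have e6 := hn _ hyr
      calc ((y p) ^ (r - 1))⁻¹ * ((y p)⁻¹ * n * y p) * (y p) ^ (r - 1)
          = ((y p) * (y p) ^ (r - 1))⁻¹ * (n * ((y p) * (y p) ^ (r - 1))) := by group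
        _ = ((y p) ^ r)⁻¹ * (n * (y p) ^ r) := by rw [e5]
        _ = ((y p) ^ r)⁻¹ * ((y p) ^ r * n) := by rw [e6]
        _ = n := by group
    rw [h7] at h6
    refine ⟨_, ?_, h6⟩
    have h8 : 0 < (q : ℕ) ^ J q - (p : ℕ) ^ J p := by omega
    have h9 : 0 < ((p : ℕ) ^ J p) ^ (r - 1) := pow_pos (pow_pos p.2.pos _) _
    exact Nat.mul_pos h8 h9
  -- Step 2
  let cj : G ⧸ C → G := fun x => (Quotient.out x)⁻¹ * n * Quotient.out x
  have hcj : ∀ g : G, g⁻¹ * n * g = cj (QuotientGroup.mk g) := by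
    intro g
    have h3 : (Quotient.out (QuotientGroup.mk g : G ⧸ C))⁻¹ * g ∈ C :=
      QuotientGroup.eq.1 (Quotient.out_eq (QuotientGroup.mk g : G ⧸ C))
    set z := Quotient.out (QuotientGroup.mk g : G ⧸ C) with hz
    have h4 := hcomm z _ h3
    show g⁻¹ * n * g = z⁻¹ * n * z
    calc g⁻¹ * n * g = (z⁻¹ * g)⁻¹ * ((z⁻¹ * n * z) * (z⁻¹ * g)) := by group
      _ = (z⁻¹ * g)⁻¹ * ((z⁻¹ * g) * (z⁻¹ * n * z)) := by rw [h4]
      _ = z⁻¹ * n * z := by group
  have hE : ∀ x : G ⧸ C, ∃ e : ℕ, 1 ≤ e ∧ ((∃ e', 1 ≤ e' ∧ P (cj x) e') → P (cj x) e) := by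
    intro x
    by_cases h : ∃ e', 1 ≤ e' ∧ P (cj x) e'
    · obtain ⟨e', he', h'⟩ := h
      exact ⟨e', he', fun _ => h'⟩
    · exact ⟨1, le_rfl, fun h' => absurd h' h⟩
  choose ee hee1 hee2 using hE
  have hfinC : Finite (G ⧸ C) := inferInstance
  let _ : Fintype (G ⧸ C) := Fintype.ofFinite _
  let E : ℕ := ∏ x : G ⧸ C, ee x
  have hE1 : 1 ≤ ∏ x : G ⧸ C, ee x := Nat.succ_le_of_lt (Finset.prod_pos (fun x _ => hee1 x))
  obtain ⟨J, hJ, h3, h4⟩ := FullyAD.both h1 h2 hE1
  obtain ⟨y, hy⟩ := isConj_iff.1 h3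
  obtain ⟨y', hy'⟩ := isConj_iff.1 h4
  have hrel := rel _ _ _ hy hy'
  have hPn' : P ((1 : G)⁻¹ * n * 1) e1 := by
    rw [inv_one, one_mul, mul_one]
    exact hPn
  have h5 := P2 1 y _ _ hy hPn'
  rw [inv_one, one_mul, mul_one] at h5
  have h6 : P (cj (QuotientGroup.mk y)) (ee (QuotientGroup.mk y)) := by
    apply hee2
    rw [← hcj]
    exact ⟨_, Nat.mul_pos he1 (pow_pos hE1 J), h5⟩
  have h7 : ee (QuotientGroup.mk y) ∣ E ^ J :=
    (Finset.dvd_prod_of_mem ee (Finset.mem_univ _)).trans (dvd_pow_self E (by omega))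
  obtain ⟨t, ht⟩ := h7
  rw [← hcj] at h6
  have h8 := P1 y _ t h6
  rw [← ht] at h8
  obtain ⟨c, hc, hce⟩ := h8
  have h9 : IsConj s (s * (y⁻¹ * n * y) ^ E ^ J) := isConj_iff.2 ⟨c, hce⟩
  have h10 : IsConj (s * n) (s * (y⁻¹ * n * y) ^ E ^ J) := isConj_iff.2 ⟨_, hrel⟩
  exact h9.trans h10.symm

/-- elements with finitely many conjugates -/
theorem isConj_of_FC (s n : G) (hn : {b | IsConj n b}.Finite) (h1 : FullyAD s)
    (h2 : FullyAD (s * n)) : IsConj s (s * n) := by
  classical
  let X : Set G := {b | IsConj n b}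
  have hfin : Finite X := hn
  let act : G →* Equiv.Perm X :=
    { toFun := fun g =>
        { toFun := fun b => ⟨g * b * g⁻¹, (show IsConj n (b : G) from b.2).trans
            (isConj_iff.2 ⟨g, rfl⟩)⟩
          invFun := fun b => ⟨g⁻¹ * b * g, (show IsConj n (b : G) from b.2).trans
            (isConj_iff.2 ⟨g⁻¹, by rw [inv_inv]⟩)⟩
          left_inv := fun b => Subtype.ext (by simp [mul_assoc])
          right_inv := fun b => Subtype.ext (by simp [mul_assoc]) }
      map_one' := by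
        ext b
        simp
      map_mul' := by
        intro g h
        ext b
        simp [mul_assoc] }
  let C : Subgroup G := act.ker
  have hCfin : C.FiniteIndex := Subgroup.finiteIndex_ker act
  have hCX : ∀ c ∈ C, ∀ b ∈ X, c * b = b * c := by
    intro c hc b hb
    have h3 : act c = 1 := hc
    have h4 : act c ⟨b, hb⟩ = ⟨b, hb⟩ := by rw [h3]; rfl
    have h5 : c * b * c⁻¹ = b := congrArg Subtype.val h4
    exact mul_inv_eq_iff_eq_mul.1 h5
  have hCcl : ∀ c ∈ C, ∀ b ∈ Subgroup.closure X, c * b = b * c := by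
    intro c hc b hb
    induction hb using Subgroup.closure_induction with
    | mem b hb => exact hCX c hc b hb
    | one => rw [mul_one, one_mul]
    | mul x y _ _ hx hy => rw [← mul_assoc, hx, mul_assoc, hy, mul_assoc]
    | inv x _ hx => exact (show Commute c x from hx).inv_right.eq
  have hXn : (Subgroup.closure X).Normal := by
    have hX : X = {b | IsConj n b} := rfl
    constructor
    intro a ha g
    induction ha using Subgroup.closure_induction with
    | mem b hb =>
      exact Subgroup.subset_closure ((show IsConj n b from hb).trans (isConj_iff.2 ⟨g, rfl⟩))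
    | one => rw [mul_one, mul_inv_cancel]; exact Subgroup.one_mem _
    | mul x y _ _ hx hy =>
      have : g * (x * y) * g⁻¹ = (g * x * g⁻¹) * (g * y * g⁻¹) := by group
      rw [this]
      exact Subgroup.mul_mem _ hx hy
    | inv x _ hx =>
      have : g * x⁻¹ * g⁻¹ = (g * x * g⁻¹)⁻¹ := by group
      rw [this]
      exact Subgroup.inv_mem _ hx
  set r := C.index with hr
  have hr0 : 1 ≤ r := Nat.pos_of_ne_zero Subgroup.FiniteIndex.index_ne_zero
  have hs1 : s ^ r ∈ C := C.pow_index_mem s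
  set n1 : G := (s ^ r)⁻¹ * (s * n) ^ r with hn1
  have hn1cl : n1 ∈ Subgroup.closure X := by
    have h3 : QuotientGroup.mk' (Subgroup.closure X) n1 = 1 := by
      have h4 : QuotientGroup.mk' (Subgroup.closure X) n = 1 :=
        (QuotientGroup.eq_one_iff n).2 (Subgroup.subset_closure (IsConj.refl n))
      rw [hn1, map_mul, map_inv, map_pow, map_pow, map_mul, h4, mul_one, inv_mul_cancel]
    exact (QuotientGroup.eq_one_iff n1).1 h3
  have hsn1 : s ^ r * n1 = (s * n) ^ r := by rw [hn1]; group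
  have h3 : IsConj (s ^ r) (s ^ r * n1) := by
    apply isConj_core C (s ^ r) n1 hs1 (fun c hc => hCcl c hc n1 hn1cl) (h1.pow r)
    rw [hsn1]
    exact h2.pow r
  rw [hsn1] at h3
  exact FullyAD.isConj_of_pow h1 h2 hr0 h3

end

/-! ### lifting -/

section

variable {R : Type u} [CommRing R] [IsDomain R] {G : Type v} [Group G] {n : ℕ}

theorem fullyAD_of_tf (hR : NoUnitPrimes R)
    (A : Matrix (Fin n) (Fin n) (MonoidAlgebra R G)) (hA : A * A = A) (g : G)
    (hg : tf (ind R g) A ≠ 0) : FullyAD g := by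
  apply fullyAD_of_primes
  intro p hp
  by_contra hcon
  push Not at hcon
  exact hg (tf_zero_of_prime hp (hR p hp) A hA g hcon)

omit [IsDomain R] in
lemma ell_map {Q : Type w} [Group Q] (φ : G →* Q) (f : Q → R) (x : MonoidAlgebra R G) :
    ell f (mapDomainRingHom R φ x) = ell (fun g => f (φ g)) x :=
  Pool.Agent.H23R2.Cyc.ell_mapDomain φ f x

/-- the conjecture lifts through unmixed normal subgroups -/
theorem bass_lift (hR : NoUnitPrimes R) (N : Subgroup G) [N.Normal] (hN : Unmixed N)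
    (hQ : BassFor R (G ⧸ N)) : BassFor R G := by
  classical
  intro n A hA g hg
  have hA' : A * A = A := hA
  show tau A g = 0
  by_cases hfin : orderOf g = 0
  swap
  · rw [tau_eq]
    exact tf_zero_of_finite A hA' g hfin hg
  rw [tau_eq]
  by_contra hne
  have hgAD := fullyAD_of_tf hR A hA' g hne
  -- `g` is not in `N`
  have hgN : g ∉ N := by
    intro hgN
    have h1 := hN 1 g hgN (fun k _ => ⟨1, le_rfl, by rw [one_pow]⟩) (by rw [one_mul]; exact hgAD)
    rw [one_mul] at h1
    have h2 : g = 1 := isConj_one_right.1 h1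
    rw [h2, orderOf_one] at hfin
    exact one_ne_zero hfin
  -- the rank over the quotient
  have hQ0 : tf (ind R (QuotientGroup.mk' N g)) (A.map (mapDomainRingHom R (QuotientGroup.mk' N))) =
      0 := by
    rw [← tau_eq]
    refine hQ n _ ?_ _ ?_
    · show _ * _ = _
      rw [← Matrix.map_mul, hA']
    · by_cases h0 : orderOf (QuotientGroup.mk' N g) = 0
      · rw [h0, Nat.cast_zero]
        exact not_isUnit_zero
      · have h1 : orderOf (QuotientGroup.mk' N g) ≠ 1 := by
          rw [Ne, orderOf_eq_one_iff]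
          intro h
          exact hgN ((QuotientGroup.eq_one_iff g).1 h)
        obtain ⟨p, hp, hpd⟩ := Nat.exists_prime_and_dvd h1
        intro hu
        obtain ⟨d, hd⟩ := hpd
        rw [hd, Nat.cast_mul] at hu
        exact hR p hp (isUnit_of_mul_isUnit_left hu)
  let f' : G → R := fun h => if IsConj (QuotientGroup.mk' N h) (QuotientGroup.mk' N g) ∧
    ¬ IsConj h g then 1 else 0
  have hf' : tf f' A = 0 := by
    rw [tf_apply, ← map_sum]
    apply ell_class
    · intro a b hab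
      have e1 : IsConj (QuotientGroup.mk' N a) (QuotientGroup.mk' N g) ↔
          IsConj (QuotientGroup.mk' N b) (QuotientGroup.mk' N g) := by
        have h3 := MonoidHom.map_isConj (QuotientGroup.mk' N) hab
        exact ⟨fun h => h3.symm.trans h, fun h => h3.trans h⟩
      have e2 : IsConj a g ↔ IsConj b g := ⟨fun h => hab.symm.trans h, fun h => hab.trans h⟩
      simp only [f', e1, e2]
    · intro h hh
      have hh' : IsConj (QuotientGroup.mk' N h) (QuotientGroup.mk' N g) ∧ ¬ IsConj h g := by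
        by_contra h4
        exact hh (if_neg h4)
      by_contra hne'
      have hne2 : tf (ind R h) A ≠ 0 := by
        rw [tf_apply, ← map_sum]
        exact hne'
      have hhAD := fullyAD_of_tf hR A hA' h hne2
      apply hh'.2
      -- conjugate `h` into `g N`
      obtain ⟨q, hq⟩ := isConj_iff.1 hh'.1
      obtain ⟨c, rfl⟩ := QuotientGroup.mk'_surjective N q
      have h5 : g⁻¹ * (c * h * c⁻¹) ∈ N := by
        have h6 : QuotientGroup.mk' N (g⁻¹ * (c * h * c⁻¹)) = 1 := by
          rw [map_mul, map_inv, map_mul, map_mul, map_inv, hq, inv_mul_cancel]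
        exact (QuotientGroup.eq_one_iff _).1 h6
      have h7 : g * (g⁻¹ * (c * h * c⁻¹)) = c * h * c⁻¹ := by group
      have h8 : IsConj h (c * h * c⁻¹) := isConj_iff.2 ⟨c, rfl⟩
      have h9 : FullyAD (c * h * c⁻¹) := by
        intro k hk
        obtain ⟨J, hJ, h10⟩ := hhAD k hk
        exact ⟨J, hJ, h8.symm.trans (h10.trans (isConj_pow' h8 _))⟩
      have h11 := hN g (g⁻¹ * (c * h * c⁻¹)) h5 hgAD (by rw [h7]; exact h9)
      rw [h7] at h11
      exact h8.trans h11.symm
  -- comparison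
  apply hne
  have h1 : tf (ind R (QuotientGroup.mk' N g)) (A.map (mapDomainRingHom R (QuotientGroup.mk' N))) =
      tf (ind R g) A + tf f' A := by
    have e1 : ∀ x : MonoidAlgebra R G, ell (ind R (QuotientGroup.mk' N g))
        (mapDomainRingHom R (QuotientGroup.mk' N) x) = ell (ind R g) x + ell f' x := by
      intro x
      induction x using MonoidAlgebra.induction_linear with
      | zero => simp
      | add x y hx hy => simp only [map_add, hx, hy]; ring
      | single h r =>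
        rw [ell_map, ell_single, ell_single, ell_single, ← mul_add]
        congr 1
        show ind R (QuotientGroup.mk' N g) (QuotientGroup.mk' N h) = ind R g h + f' h
        unfold ind
        simp only [f']
        by_cases h2 : IsConj h g
        · have h3 := MonoidHom.map_isConj (QuotientGroup.mk' N) h2
          rw [if_pos h3, if_pos h2, if_neg (fun h4 => h4.2 h2), add_zero]
        · by_cases h3 : IsConj (QuotientGroup.mk' N h) (QuotientGroup.mk' N g)
          · rw [if_pos h3, if_neg h2, if_pos ⟨h3, h2⟩, zero_add]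
          · rw [if_neg h3, if_neg h2, if_neg (fun h4 => h3 h4.1), zero_add]
    rw [tf_apply, tf_apply, tf_apply, ← Finset.sum_add_distrib]
    exact Finset.sum_congr rfl (fun i _ => e1 (A i i))
  rw [hQ0, hf', add_zero] at h1
  exact h1.symm

end

/-! ### unmixed normal subgroups -/

section

variable {G : Type v} [Group G]

lemma FullyAD.map {Q : Type w} [Group Q] (f : G →* Q) {s : G} (h : FullyAD s) : FullyAD (f s) := by
  intro k hk
  obtain ⟨J, hJ, h1⟩ := h k hk
  refine ⟨J, hJ, ?_⟩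
  rw [← map_pow]
  exact MonoidHom.map_isConj f h1

lemma FullyAD.eq_one_of_finOrd {s : G} (h : FullyAD s) (hs : FinOrd s) : s = 1 := by
  obtain ⟨n, hn, hsn⟩ := hs
  obtain ⟨J, hJ, h1⟩ := h n hn
  have h2 : s ^ n ^ J = 1 := by
    obtain ⟨m, rfl⟩ : ∃ m, J = m + 1 := ⟨J - 1, by omega⟩
    rw [pow_succ', pow_mul, hsn, one_pow]
  rw [h2] at h1
  exact isConj_one_left.1 h1

lemma FullyAD.eq_one [Finite G] {s : G} (h : FullyAD s) : s = 1 :=
  h.eq_one_of_finOrd ⟨orderOf s, orderOf_pos s, pow_orderOf_eq_one s⟩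

theorem unmixed_of_rigid (N : Subgroup G) [N.Normal] (hN : RigidAction N) (hZ : TameCentre N) :
    Unmixed N := by
  intro s n hn h1 h2
  have key : ∀ s : G, FullyAD s → s ∈ Subgroup.centralizer (N : Set G) := by
    intro s hs
    exact (QuotientGroup.eq_one_iff s).1
      (hN _ (hs.map (QuotientGroup.mk' (Subgroup.centralizer (N : Set G)))))
  have hs := key s h1
  have hsn := key _ h2
  have hnC : n ∈ Subgroup.centralizer (N : Set G) := by
    have : n = s⁻¹ * (s * n) := by group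
    rw [this]
    exact Subgroup.mul_mem _ (Subgroup.inv_mem _ hs) hsn
  obtain ⟨k, hk, hfin⟩ := hZ n hn hnC
  have hcomm : Commute s n := (Subgroup.mem_centralizer_iff.1 hs n hn).symm
  apply FullyAD.isConj_of_pow h1 h2 hk
  rw [hcomm.mul_pow]
  apply isConj_of_FC (s ^ k) (n ^ k) hfin (h1.pow k)
  rw [← hcomm.mul_pow]
  exact h2.pow k

/-- unmixed extensions -/
theorem unmixed_ext (M N : Subgroup G) [M.Normal] (hM : Unmixed M)
    (hN : Unmixed (N.map (QuotientGroup.mk' M))) : Unmixed N := by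
  intro s n hn h1 h2
  have h3 := hN (QuotientGroup.mk' M s) (QuotientGroup.mk' M n) (Subgroup.mem_map_of_mem _ hn)
    (h1.map _) (by rw [← map_mul]; exact h2.map _)
  rw [← map_mul] at h3
  obtain ⟨q, hq⟩ := isConj_iff.1 h3
  obtain ⟨c, rfl⟩ := QuotientGroup.mk'_surjective M q
  -- `c s c⁻¹ = s n m`
  have h4 : (s * n)⁻¹ * (c * s * c⁻¹) ∈ M := by
    have h5 : QuotientGroup.mk' M ((s * n)⁻¹ * (c * s * c⁻¹)) = 1 := by
      have e : QuotientGroup.mk' M (c * s * c⁻¹) =
          QuotientGroup.mk' M c * QuotientGroup.mk' M s * (QuotientGroup.mk' M c)⁻¹ := by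
        rw [map_mul, map_mul, map_inv]
      rw [map_mul, map_inv, e, hq, inv_mul_cancel]
    exact (QuotientGroup.eq_one_iff _).1 h5
  have h6 : (s * n) * ((s * n)⁻¹ * (c * s * c⁻¹)) = c * s * c⁻¹ := by group
  have h7 : IsConj s (c * s * c⁻¹) := isConj_iff.2 ⟨c, rfl⟩
  have h8 : FullyAD (c * s * c⁻¹) := by
    intro k hk
    obtain ⟨J, hJ, h9⟩ := h1 k hk
    exact ⟨J, hJ, h7.symm.trans (h9.trans (isConj_pow' h7 _))⟩
  have h9 := hM (s * n) _ h4 h2 (by rw [h6]; exact h8)
  rw [h6] at h9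
  exact h7.trans h9.symm

/-- unmixed series -/
theorem unmixed_series (S : ℕ → Subgroup G) [∀ i, (S i).Normal] (h0 : S 0 = ⊥) (k : ℕ)
    (h : ∀ i < k, Unmixed ((S (i + 1)).map (QuotientGroup.mk' (S i)))) :
    ∀ i ≤ k, Unmixed (S i) := by
  intro i
  induction i with
  | zero =>
    intro _ s n hn _ _
    rw [h0, Subgroup.mem_bot] at hn
    rw [hn, mul_one]
  | succ i ih =>
    intro hi
    exact unmixed_ext (S i) (S (i + 1)) (ih (by omega)) (h i hi)

/-- finite conjugacy classes -/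
theorem rigid_of_FC (N : Subgroup G) [N.Normal] (hN : ∀ a ∈ N, {b | IsConj a b}.Finite) :
    RigidAction N := by
  classical
  intro s hs
  obtain ⟨s, rfl⟩ := QuotientGroup.mk'_surjective _ s
  refine (QuotientGroup.eq_one_iff s).2 (Subgroup.mem_centralizer_iff.2 (fun n hn => ?_))
  let X : Set G := {b | IsConj n b}
  have hfin : Finite X := hN n hn
  let act : G →* Equiv.Perm X :=
    { toFun := fun g =>
        { toFun := fun b => ⟨g * b * g⁻¹, (show IsConj n (b : G) from b.2).trans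
            (isConj_iff.2 ⟨g, rfl⟩)⟩
          invFun := fun b => ⟨g⁻¹ * b * g, (show IsConj n (b : G) from b.2).trans
            (isConj_iff.2 ⟨g⁻¹, by rw [inv_inv]⟩)⟩
          left_inv := fun b => Subtype.ext (by simp [mul_assoc])
          right_inv := fun b => Subtype.ext (by simp [mul_assoc]) }
      map_one' := by
        ext b
        simp
      map_mul' := by
        intro g h
        ext b
        simp [mul_assoc] }
  have hker : Subgroup.centralizer (N : Set G) ≤ act.ker := by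
    intro c hc
    rw [MonoidHom.mem_ker]
    ext b
    show c * (b : G) * c⁻¹ = b
    have hbN : (b : G) ∈ N := by
      obtain ⟨g, hg⟩ := isConj_iff.1 (show IsConj n (b : G) from b.2)
      rw [← hg]
      exact ‹N.Normal›.conj_mem n hn g
    rw [mul_inv_eq_iff_eq_mul]
    exact (Subgroup.mem_centralizer_iff.1 hc b hbN).symm
  have h1 := (hs.map (QuotientGroup.lift _ act hker)).eq_one
  have h2 : act s = 1 := h1
  have h3 : act s ⟨n, IsConj.refl n⟩ = ⟨n, IsConj.refl n⟩ := by rw [h2]; rfl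
  have h4 : s * n * s⁻¹ = n := congrArg Subtype.val h3
  exact (mul_inv_eq_iff_eq_mul.1 h4).symm

/-- actions through groups without chains of roots -/
theorem rigid_of_pChainFin (N : Subgroup G) [N.Normal] (p : ℕ) (hp : p.Prime)
    (h : PChainFin p (G ⧸ Subgroup.centralizer (N : Set G))) : RigidAction N := by
  intro s hs
  apply hs.eq_one_of_finOrd
  obtain ⟨J, hJ, h1⟩ := hs p hp.one_le
  refine no_p_chain ⊤ ?_ s trivial hJ h1
  intro b hb
  obtain ⟨n, hn, h2⟩ := h (fun i => (b i : G ⧸ Subgroup.centralizer (N : Set G)))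
    (fun i => congrArg Subtype.val (hb i))
  exact ⟨n, hn, Subtype.ext h2⟩

/-- finitely generated residually finite normal subgroups -/
theorem rigid_of_fg (N : Subgroup G) [N.Normal] (hN : FGResFinite N) : RigidAction N := by
  classical
  obtain ⟨hfg, hres⟩ := hN
  intro s hs
  obtain ⟨s, rfl⟩ := QuotientGroup.mk'_surjective _ s
  refine (QuotientGroup.eq_one_iff s).2 (Subgroup.mem_centralizer_iff.2 (fun n hn => ?_))
  -- all homomorphisms to finite groups are invariant
  have key : ∀ (Q : Type) [Group Q] [Finite Q] (f : N →* Q),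
      f.comp (MulAut.conjNormal s⁻¹).toMonoidHom = f := by
    intro Q _ _ f
    have hfin : Finite (N →* Q) := by
      have : Group.FG N := (Group.fg_iff_subgroup_fg N).2 hfg
      obtain ⟨T, hT⟩ := Group.fg_def.1 this
      have hinj : Function.Injective (fun (f : N →* Q) (t : T) => f t) := by
        intro f f' hff
        apply MonoidHom.eq_of_eqOn_dense hT
        intro t ht
        exact congrFun hff ⟨t, ht⟩
      exact Finite.of_injective _ hinj
    let act : G →* Equiv.Perm (N →* Q) :=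
      { toFun := fun g =>
          { toFun := fun f => f.comp (MulAut.conjNormal g⁻¹).toMonoidHom
            invFun := fun f => f.comp (MulAut.conjNormal g).toMonoidHom
            left_inv := fun f => by
              ext x
              simp [MulAut.conjNormal]
            right_inv := fun f => by
              ext x
              simp [MulAut.conjNormal] }
        map_one' := by
          ext f x
          simp
        map_mul' := by
          intro g h
          ext f x
          simp }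
    have hker : Subgroup.centralizer (N : Set G) ≤ act.ker := by
      intro c hc
      rw [MonoidHom.mem_ker]
      ext f x
      show f (MulAut.conjNormal c⁻¹ x) = f x
      congr 1
      apply Subtype.ext
      rw [MulAut.conjNormal_apply, inv_inv]
      have := Subgroup.mem_centralizer_iff.1 hc x x.2
      rw [mul_assoc, this]
      group
    have h1 := (hs.map (QuotientGroup.lift _ act hker)).eq_one
    have h2 : act s = 1 := h1
    have h3 : act s f = f := by rw [h2]; rfl
    exact h3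
  by_contra hne
  -- `s⁻¹ n s n⁻¹ ≠ 1`
  let x : N := MulAut.conjNormal s⁻¹ ⟨n, hn⟩ * (⟨n, hn⟩ : N)⁻¹
  have hx : x ≠ 1 := by
    intro h
    apply hne
    have h2 : MulAut.conjNormal s⁻¹ ⟨n, hn⟩ = (⟨n, hn⟩ : N) := mul_inv_eq_one.1 h
    have h3 := congrArg Subtype.val h2
    rw [MulAut.conjNormal_apply, inv_inv] at h3
    have h4 : s⁻¹ * n * s = n := h3
    have h5 : n * s = s * n := by
      rw [mul_assoc, inv_mul_eq_iff_eq_mul] at h4
      exact h4
    exact h5
  obtain ⟨Q, _, _, f, hf⟩ := hres x hx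
  apply hf
  have h1 := DFunLike.congr_fun (key Q f) ⟨n, hn⟩
  have h2 : f (MulAut.conjNormal s⁻¹ ⟨n, hn⟩) = f ⟨n, hn⟩ := h1
  have h3 : f x = f (MulAut.conjNormal s⁻¹ ⟨n, hn⟩) * (f ⟨n, hn⟩)⁻¹ := by
    rw [← map_inv f, ← map_mul f]
  rw [h3, h2, mul_inv_cancel]

/-- normally residually finite normal subgroups -/
theorem rigid_of_res (N : Subgroup G) [N.Normal] (hN : NormallyResFinite N) : RigidAction N := by
  classical
  intro s hs
  obtain ⟨s, rfl⟩ := QuotientGroup.mk'_surjective _ s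
  refine (QuotientGroup.eq_one_iff s).2 (Subgroup.mem_centralizer_iff.2 (fun n hn => ?_))
  by_contra hne
  have hx : s * n * s⁻¹ * n⁻¹ ≠ 1 := by
    intro h
    apply hne
    have h2 : s * n * s⁻¹ = n := mul_inv_eq_one.1 h
    exact (mul_inv_eq_iff_eq_mul.1 h2).symm
  obtain ⟨M, hM, hMN, hfin, hxM⟩ := hN _ (N.mul_mem (‹N.Normal›.conj_mem n hn s) (N.inv_mem hn)) hx
  have hfinQ : Finite (N ⧸ M.subgroupOf N) := inferInstance
  have hMn : (M.subgroupOf N).Normal := inferInstance
  -- the action on `N / M`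
  have hle : ∀ g : G, M.subgroupOf N ≤ (M.subgroupOf N).comap (MulAut.conjNormal g).toMonoidHom := by
    intro g x hx
    show MulAut.conjNormal g x ∈ M.subgroupOf N
    rw [Subgroup.mem_subgroupOf, MulAut.conjNormal_apply]
    exact hM.conj_mem x (Subgroup.mem_subgroupOf.1 hx) g
  let m : G → (N ⧸ M.subgroupOf N) →* (N ⧸ M.subgroupOf N) := fun g =>
    QuotientGroup.map _ _ (MulAut.conjNormal g).toMonoidHom (hle g)
  have hm : ∀ g (x : N), m g (QuotientGroup.mk x) = QuotientGroup.mk (MulAut.conjNormal g x) :=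
    fun g x => rfl
  have hm1 : ∀ x, m 1 x = x := by
    intro x
    obtain ⟨x, rfl⟩ := QuotientGroup.mk_surjective x
    rw [hm, map_one]
    rfl
  have hmm : ∀ g h x, m (g * h) x = m g (m h x) := by
    intro g h x
    obtain ⟨x, rfl⟩ := QuotientGroup.mk_surjective x
    rw [hm, hm, hm, map_mul]
    rfl
  let act : G →* Equiv.Perm (N ⧸ M.subgroupOf N) :=
    { toFun := fun g =>
        { toFun := m g
          invFun := m g⁻¹
          left_inv := fun x => by rw [← hmm, inv_mul_cancel, hm1]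
          right_inv := fun x => by rw [← hmm, mul_inv_cancel, hm1] }
      map_one' := by
        ext x
        exact hm1 x
      map_mul' := by
        intro g h
        ext x
        exact hmm g h x }
  have hker : Subgroup.centralizer (N : Set G) ≤ act.ker := by
    intro c hc
    rw [MonoidHom.mem_ker]
    ext x
    obtain ⟨x, rfl⟩ := QuotientGroup.mk_surjective x
    show m c (QuotientGroup.mk x) = QuotientGroup.mk x
    rw [hm]
    congr 1
    apply Subtype.ext
    rw [MulAut.conjNormal_apply]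
    have := Subgroup.mem_centralizer_iff.1 hc x x.2
    rw [← this]
    group
  have h1 := (hs.map (QuotientGroup.lift _ act hker)).eq_one
  have h2 : act s = 1 := h1
  have h3 : act s (QuotientGroup.mk (⟨n, hn⟩ : N)) = QuotientGroup.mk (⟨n, hn⟩ : N) := by
    rw [h2]; rfl
  have h4 : (QuotientGroup.mk (MulAut.conjNormal s ⟨n, hn⟩) : N ⧸ M.subgroupOf N) =
      QuotientGroup.mk (⟨n, hn⟩ : N) := h3
  have h5 := QuotientGroup.eq.1 h4
  rw [Subgroup.mem_subgroupOf] at h5
  have h6 : (s * n * s⁻¹)⁻¹ * n ∈ M := by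
    have e : (((MulAut.conjNormal s ⟨n, hn⟩)⁻¹ * (⟨n, hn⟩ : N) : N) : G) =
        (s * n * s⁻¹)⁻¹ * n := by
      rw [Subgroup.coe_mul, Subgroup.coe_inv, MulAut.conjNormal_apply]
    rw [← e]
    exact h5
  apply hxM
  have h7 := M.inv_mem h6
  have h8 := hM.conj_mem _ h7 n
  have h9 : n * ((s * n * s⁻¹)⁻¹ * n)⁻¹ * n⁻¹ = s * n * s⁻¹ * n⁻¹ := by group
  rwa [h9] at h8

theorem unmixed_of_special (N : Subgroup G) (hn : N.Normal) (hN : SpecialKernel N) :
    Unmixed N := by
  obtain ⟨hZ, h | h | h | ⟨_, p, hp, h⟩⟩ := hN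
  · exact unmixed_of_rigid N (rigid_of_FC N h) hZ
  · exact unmixed_of_rigid N (rigid_of_fg N h) hZ
  · exact unmixed_of_rigid N (rigid_of_res N h) hZ
  · exact unmixed_of_rigid N (rigid_of_pChainFin N p hp h) hZ

theorem unmixed_of_liftSeries (N : Subgroup G) (hN : LiftSeries N) : Unmixed N := by
  obtain ⟨k, S, hS, h0, rfl, h⟩ := hN
  refine unmixed_series S h0 k (fun i hi => ?_) k le_rfl
  rcases (h i hi).2 with h1 | h1
  · exact h1
  · exact unmixed_of_special _
      (Subgroup.Normal.map inferInstance _ (QuotientGroup.mk'_surjective _)) h1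

end

end Pool.Agent.H26R2.Bass
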