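import Mathlib
import Pool.Agent.H26R2.Perf.Main
import Pool.Agent.H26R2.Bass.Ext

set_option autoImplicit false

/-!
The weak form of the Bass trace conjecture and normal subgroups without chains of roots.
-/

namespace Pool.Agent.H26R2.Weak

open MonoidAlgebra
open Pool.Agent.H40R2.Zd (fs fs_single fs_coeff)
open Pool.Agent.H23R2.Cyc (tf tf_apply)
open Pool.Agent.H26R2.IdemLI (U cind coeff_one_quot U_class U_eq_sum ch ch_coeff ch_injective)
open Pool.Agent.H26R2.Bass (FullyAD FullyAD.map fullyAD_of_tf ind tf_ch NoUnitPrimes U_eq_ell tau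
  tau_eq)
open Pool.Agent.H26R2.Perf (NoQ eq_one_of_noQ)

universe u v

/-- `N` has a finite series `1 = S_0 ≤ S_1 ≤ … ≤ S_k = N` of normal subgroups of `G` whose factors
satisfy `NoQ`. -/
def NoQSeries {G : Type v} [Group G] (N : Subgroup G) : Prop :=
  ∃ (k : ℕ) (S : ℕ → Subgroup G) (_ : ∀ i, (S i).Normal), S 0 = ⊥ ∧ S k = N ∧
    ∀ i < k, S i ≤ S (i + 1) ∧ NoQ ((S (i + 1)).map (QuotientGroup.mk' (S i)))

/-- The rank of every idempotent matrix over `R[G]` vanishes at all elements `g ≠ 1` of `N`. -/
def BassOn (R : Type u) [CommRing R] {G : Type v} [Group G] (N : Subgroup G) : Prop :=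
  ∀ (n : ℕ) (A : Matrix (Fin n) (Fin n) (MonoidAlgebra R G)), IsIdempotentElem A →
    ∀ g ∈ N, g ≠ 1 → ∑ i : Fin n, ∑ᶠ (h : G) (_ : IsConj h g), (A i i).coeff h = 0

/-- The coefficient at `1` of the trace of every idempotent matrix over `R[G]` is the same as for its
image over `R[G/N]`. -/
def SameKaplanskyRank (R : Type u) [CommRing R] {G : Type v} [Group G] (N : Subgroup G)
    [N.Normal] : Prop :=
  ∀ (n : ℕ) (A : Matrix (Fin n) (Fin n) (MonoidAlgebra R G)), IsIdempotentElem A →
    ∑ i : Fin n, (mapDomainRingHom R (QuotientGroup.mk' N) (A i i)).coeff 1 =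
      ∑ i : Fin n, (A i i).coeff 1

/-- The weak form of the conjecture for `R` and `G`: the coefficient at `1` of the trace of every
idempotent matrix over `R[G]` is the sum of all coefficients of the trace. -/
def WeakBass (R : Type u) [CommRing R] (G : Type v) [Group G] : Prop :=
  ∀ (n : ℕ) (A : Matrix (Fin n) (Fin n) (MonoidAlgebra R G)), IsIdempotentElem A →
    ∑ i : Fin n, (A i i).coeff 1 = ∑ i : Fin n, (A i i).coeff.sum fun _ r => r

section

variable {G : Type v} [Group G] {n : ℕ}

theorem eq_one_of_series (N : Subgroup G) (hN : NoQSeries N) (g : G) (hg : g ∈ N)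
    (h : FullyAD g) : g = 1 := by
  obtain ⟨k, S, hS, h0, hk, hfac⟩ := hN
  have key : ∀ i ≤ k, g ∈ S (k - i) := by
    intro i
    induction i with
    | zero => intro _; rw [Nat.sub_zero, hk]; exact hg
    | succ i ih =>
      intro hi
      have h1 := ih (by omega)
      obtain ⟨hle, hf⟩ := hfac (k - (i + 1)) (by omega)
      have e : k - (i + 1) + 1 = k - i := by omega
      rw [← e] at h1
      have h2 := eq_one_of_noQ _ hf (QuotientGroup.mk' (S (k - (i + 1))) g)
        (Subgroup.mem_map_of_mem _ h1) (h.map _)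
      exact (QuotientGroup.eq_one_iff g).1 h2
  have h1 := key k le_rfl
  rw [Nat.sub_self, h0] at h1
  exact Subgroup.mem_bot.1 h1

/-- the trace over a quotient -/
theorem trace_quot' {K : Type u} [Field K] (N : Subgroup G) [N.Normal]
    (E : Matrix (Fin n) (Fin n) (MonoidAlgebra K G))
    (hN : ∀ g ∈ N, g ≠ 1 → U (cind K g) (∑ i, E i i) = 0) :
    (∑ i, (E.map (fs K (QuotientGroup.mk' N))) i i).coeff 1 = (∑ i, E i i).coeff 1 := by
  classical
  have h2 : U (fun y => if (y ∈ N ∧ y ≠ 1) then (1 : K) else 0) (∑ i, E i i) = 0 := by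
    have e1 : ∀ (a c : G), c * a * c⁻¹ ∈ N ↔ a ∈ N := by
      intro a c
      constructor
      · intro h
        have h3 := ‹N.Normal›.conj_mem _ h c⁻¹
        have h4 : c⁻¹ * (c * a * c⁻¹) * c⁻¹⁻¹ = a := by group
        rwa [h4] at h3
      · intro h
        exact ‹N.Normal›.conj_mem a h c
    apply U_class
    · intro a b hab
      obtain ⟨c, rfl⟩ := isConj_iff.1 hab
      simp only [e1, ne_eq, conj_eq_one_iff]
    · intro g hg
      have h3 : g ∈ N ∧ g ≠ 1 := by
        by_contra h4
        exact hg (if_neg h4)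
      exact hN g h3.1 h3.2
  have h5 : (∑ i, E i i).coeff 1 = U (fun y => if y = 1 then (1 : K) else 0) (∑ i, E i i) := by
    rw [U_eq_sum _ _ _ subset_rfl]
    simp only [mul_ite, mul_one, mul_zero, Finset.sum_ite_eq']
    split_ifs with h6
    · rfl
    · exact Finsupp.notMem_support_iff.1 h6
  rw [coeff_one_quot, h5]
  have h3 : U (fun y => if y ∈ N then (1 : K) else 0) (∑ i, E i i) =
      U (fun y => if y = 1 then (1 : K) else 0) (∑ i, E i i) +
        U (fun y => if (y ∈ N ∧ y ≠ 1) then (1 : K) else 0) (∑ i, E i i) := by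
    rw [U_eq_sum _ _ _ subset_rfl, U_eq_sum _ _ _ subset_rfl, U_eq_sum _ _ _ subset_rfl,
      ← Finset.sum_add_distrib]
    apply Finset.sum_congr rfl
    intro y _
    rw [← mul_add]
    congr 1
    by_cases hy : y = 1
    · simp [hy, N.one_mem]
    · by_cases hy' : y ∈ N
      · simp [hy, hy']
      · simp [hy, hy']
  rw [h3, h2, add_zero]

end

section

variable {R : Type u} [CommRing R] [IsDomain R] {G : Type v} [Group G] {n : ℕ}

theorem tf_zero (hR : NoUnitPrimes R) (N : Subgroup G) (hN : NoQSeries N)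
    (A : Matrix (Fin n) (Fin n) (MonoidAlgebra R G)) (hA : A * A = A) (g : G) (hg : g ∈ N)
    (hg1 : g ≠ 1) : tf (ind R g) A = 0 := by
  by_contra hne
  exact hg1 (eq_one_of_series N hN g hg (fullyAD_of_tf hR A hA g hne))

theorem bassOn (hR : NoUnitPrimes R) (N : Subgroup G) (hN : NoQSeries N) : BassOn R N := by
  intro n A hA g hg hg1
  have h1 : tau A g = 0 := by
    rw [tau_eq]
    exact tf_zero hR N hN A hA g hg hg1
  exact h1

omit [IsDomain R] in
lemma ch_fs' {K : Type u} [Field K] (θ : R →+* K) {Q : Type v} [Group Q] (f : G →* Q)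
    (x : MonoidAlgebra R G) : fs K f (ch θ G x) = ch θ Q (mapDomainRingHom R f x) := by
  classical
  induction x using MonoidAlgebra.induction_linear with
  | zero => simp
  | add a b ha hb => rw [map_add, map_add, map_add, map_add, ha, hb]
  | single g r =>
    have h1 : ∀ {Δ : Type v} [Group Δ] (d : Δ) (z : R), ch θ Δ (single d z) = single d (θ z) := by
      intro Δ _ d z
      ext y
      rw [ch_coeff, coeff_single, coeff_single, Finsupp.single_apply, Finsupp.single_apply]
      split_ifs
      · rfl
      · exact map_zero _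
    have h2 : mapDomainRingHom R f (single g r) = single (f g) r := by simp
    rw [h1, fs_single, h2, h1]

theorem sameRank (hR : NoUnitPrimes R) (N : Subgroup G) [N.Normal] (hN : NoQSeries N) :
    SameKaplanskyRank R N := by
  intro n A hA
  let K := FractionRing R
  let θ : R →+* K := algebraMap R K
  have hθ : Function.Injective θ := IsFractionRing.injective R K
  have h1 := trace_quot' N (A.map (ch θ G)) (fun g hg hg1 => by
    rw [U_eq_ell, map_sum, ← tf_apply, tf_ch, tf_zero hR N hN A hA g hg hg1, map_zero])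
  have h2 : (∑ i, ((A.map (ch θ G)).map (fs K (QuotientGroup.mk' N))) i i).coeff 1 =
      θ (∑ i : Fin n, (mapDomainRingHom R (QuotientGroup.mk' N) (A i i)).coeff 1) := by
    rw [coeff_sum, Finsupp.finsetSum_apply, map_sum]
    apply Finset.sum_congr rfl
    intro i _
    show (fs K (QuotientGroup.mk' N) (ch θ G (A i i))).coeff 1 = _
    rw [ch_fs', ch_coeff]
  have h3 : (∑ i, (A.map (ch θ G)) i i).coeff 1 = θ (∑ i : Fin n, (A i i).coeff 1) := by
    rw [coeff_sum, Finsupp.finsetSum_apply, map_sum]
    apply Finset.sum_congr rfl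
    intro i _
    show (ch θ G (A i i)).coeff 1 = _
    rw [ch_coeff]
  rw [h2, h3] at h1
  exact hθ h1

theorem weak_lift (hR : NoUnitPrimes R) (N : Subgroup G) [N.Normal] (hN : NoQSeries N)
    (hQ : WeakBass R (G ⧸ N)) : WeakBass R G := by
  classical
  intro n A hA
  rw [← sameRank hR N hN n A hA]
  have h1 := hQ n (A.map (mapDomainRingHom R (QuotientGroup.mk' N))) (by
    show _ * _ = _
    rw [← Matrix.map_mul, hA])
  have h2 : ∀ x : MonoidAlgebra R G,
      ((mapDomainRingHom R (QuotientGroup.mk' N) x).coeff.sum fun _ r => r) =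
        x.coeff.sum fun _ r => r := by
    intro x
    have h3 : ∀ {Δ : Type v} [Group Δ] (a b : MonoidAlgebra R Δ),
        ((a + b).coeff.sum fun _ r => r) =
          (a.coeff.sum fun _ r => r) + b.coeff.sum fun _ r => r := by
      intro Δ _ a b
      rw [coeff_add, Finsupp.sum_add_index' (fun _ => rfl) (fun _ _ _ => rfl)]
    induction x using MonoidAlgebra.induction_linear with
    | zero => simp
    | add a b ha hb => rw [map_add, h3, h3, ha, hb]
    | single g r =>
      have h4 : mapDomainRingHom R (QuotientGroup.mk' N) (single g r) =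
          single (QuotientGroup.mk' N g) r := by simp
      rw [h4, coeff_single, coeff_single, Finsupp.sum_single_index rfl,
        Finsupp.sum_single_index rfl]
  simp only [Matrix.map_apply, h2] at h1
  exact h1

end

end Pool.Agent.H26R2.Weak
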